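import Pool.Agent.BEW.StmtsF
import Pool.Agent.Helper39_BEL.GRQ
import Pool.Agent.Helper68_BEL.FLE
import Pool.Agent.Helper89_BEL.COO
import Pool.Agent.Helper47_BEL.NEM
import Pool.Agent.Helper29_BEL.GLP
import Pool.Agent.Helper17_BEL.GPK

set_option autoImplicit false

/-!
# Row GLX: the Galerkin solutions as flows
-/

namespace Pool.Agent.BEW.H24

open Set Filter Topology MeasureTheory
open scoped InnerProductSpace ENNReal NNReal
open Pool.Agent.BE01 Pool.Agent.BEL Pool.Agent.BEG Pool.Agent.BEH Pool.Agent.BER Pool.Agent.BEW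

noncomputable section

/-- A rotation keeps the value `0`. -/
lemma rot_zero {p v : ℝ → ℝ} {w : ℝ} (hp : ∀ t, HasDerivAt p (w * v t) t)
    (hv : ∀ t, HasDerivAt v (-(w * p t)) t) (p0 : p 0 = 0) (v0 : v 0 = 0) (t : ℝ) :
    p t = 0 ∧ v t = 0 := by
  have hd : ∀ s, HasDerivAt (fun s => p s * p s + v s * v s) 0 s := by
    intro s
    have h := ((hp s).mul (hp s)).add ((hv s).mul (hv s))
    have e : w * v s * p s + p s * (w * v s) + (-(w * p s) * v s + v s * -(w * p s)) = 0 := by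
      ring
    rw [e] at h
    exact h
  have hc := is_const_of_deriv_eq_zero (fun s => (hd s).differentiableAt) (fun s => (hd s).deriv)
    t 0
  simp only [p0, v0] at hc
  have h1 := mul_self_nonneg (p t)
  have h2 := mul_self_nonneg (v t)
  constructor
  · apply mul_self_eq_zero.1
    linarith
  · apply mul_self_eq_zero.1
    linarith

variable {X : Type} [MeasurableSpace X] {μ : Measure X}

lemma sum_ae (e : ℕ → Lp ℝ 2 μ) (bb : ℕ → X → ℝ) (hb : ∀ k, e k =ᵐ[μ] bb k) (c : ℕ → ℝ) (M : ℕ) :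
    ((∑ k ∈ Finset.range M, c k • e k : Lp ℝ 2 μ) : X → ℝ) =ᵐ[μ]
      fun x => ∑ k ∈ Finset.range M, c k * bb k x := by
  induction M with
  | zero =>
    simp only [Finset.range_zero, Finset.sum_empty]
    exact Lp.coeFn_zero ℝ 2 μ
  | succ n ih =>
    rw [Finset.sum_range_succ]
    filter_upwards [Lp.coeFn_add (∑ k ∈ Finset.range n, c k • e k) (c n • e n),
      Lp.coeFn_smul (c n) (e n), ih, hb n] with x h1 h2 h3 h4
    rw [h1, Pi.add_apply, h2, Pi.smul_apply, h3, h4, Finset.sum_range_succ, smul_eq_mul]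

theorem glx : GlxStmt := by
  intro X _ μ _ e bb om W al e0 B m0 M hal hW _ hb hM
  obtain ⟨-, hlip, -, hg0, -, -, -, -, -⟩ := Pool.Agent.BEL.H29.glp 1 al one_pos hal
  have hnem := Pool.Agent.BEL.H47.nem X μ (gl 1 al 1) _ (hlip 1 zero_le_one) (hg0 1)
  obtain ⟨-, hnl, -, hnin, -, -⟩ := hnem
  have hF : LipschitzWith (‖PJ e (Finset.range M)‖₊ *
      Real.toNNReal (1 * (al + 1) * 1 ^ al))
      (fun u => PJ e (Finset.range M) (nem μ (gl 1 al 1) u)) :=
    (PJ e (Finset.range M)).lipschitz.comp hnl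
  obtain ⟨Z, hZ⟩ := Pool.Agent.BEL.H68.fle Pool.Agent.BEL.H39.grq (Lp ℝ 2 μ) ℕ e om W _ _
    (inj (e0 • e 0)) hW hF
  have hcoo := fun k t => Pool.Agent.BEL.H89.coo (Lp ℝ 2 μ) ℕ e om W _ _ Z k t hW hZ
  have hW0 := (Pool.Agent.BEL.H39.grq (Lp ℝ 2 μ) ℕ e om W hW).1
  obtain ⟨p, hp⟩ : ∃ p : ℕ → ℝ → ℝ, p = fun k t => ⟪e k, P1 (W t (Z t))⟫_ℝ := ⟨_, rfl⟩
  obtain ⟨v, hv⟩ : ∃ v : ℕ → ℝ → ℝ, v = fun k t => ⟪e k, P2 (W t (Z t))⟫_ℝ := ⟨_, rfl⟩
  have hpk : ∀ k t, ⟪e k, P1 (W t (Z t))⟫_ℝ = p k t := fun k t => by rw [hp]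
  have hvk : ∀ k t, ⟪e k, P2 (W t (Z t))⟫_ℝ = v k t := fun k t => by rw [hv]
  have hdp : ∀ k t, HasDerivAt (p k) (om k * v k t) t := by
    intro k t
    have h := (hcoo k t).1
    rw [hvk] at h
    rw [hp]
    exact h
  have hdv : ∀ k t, HasDerivAt (v k) (-(om k) * p k t -
      ⟪e k, PJ e (Finset.range M) (nem μ (gl 1 al 1) (P2 (W t (Z t))))⟫_ℝ) t := by
    intro k t
    have h := (hcoo k t).2
    rw [hpk] at h
    rw [hv]
    exact h
  have hp0 : ∀ k, p k 0 = 0 := by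
    intro k
    rw [← hpk, hW0, hZ.z0, Pool.Agent.BEL.H17.p1_inj, inner_zero_right]
  have hv0 : ∀ k, v k 0 = e0 * (if k = 0 then 1 else 0) := by
    intro k
    rw [← hvk, hW0, hZ.z0, Pool.Agent.BEL.H17.p2_inj, inner_smul_right,
      orthonormal_iff_ite.mp e.orthonormal k 0]
  have hz : ∀ k, M ≤ k → ∀ t, p k t = 0 ∧ v k t = 0 := by
    intro k hk t
    apply rot_zero (hdp k) _ (hp0 k)
    · rw [hv0, if_neg (by omega), mul_zero]
    · intro s
      have h := hdv k s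
      rw [Pool.Agent.BEL.H17.pj_coord, if_neg (by
        rw [Finset.mem_range]
        omega), sub_zero, neg_mul] at h
      exact h
  have h1 : ∀ t, PJ e (Finset.range M) (P1 (W t (Z t))) = P1 (W t (Z t)) := by
    intro t
    apply Pool.Agent.BEL.H17.ext_coord e
    intro j
    rw [Pool.Agent.BEL.H17.pj_coord]
    split_ifs with h
    · rfl
    · rw [hpk, (hz j (by rw [Finset.mem_range] at h; omega) t).1]
  have h2 : ∀ t, PJ e (Finset.range M) (P2 (W t (Z t))) = P2 (W t (Z t)) := by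
    intro t
    apply Pool.Agent.BEL.H17.ext_coord e
    intro j
    rw [Pool.Agent.BEL.H17.pj_coord]
    split_ifs with h
    · rfl
    · rw [hvk, (hz j (by rw [Finset.mem_range] at h; omega) t).2]
  have hae : ∀ t, ((P2 (W t (Z t)) : Lp ℝ 2 μ) : X → ℝ) =ᵐ[μ] vel bb (Finset.range M) v t := by
    intro t
    have h3 : P2 (W t (Z t)) = ∑ k ∈ Finset.range M, v k t • e k := by
      rw [← h2 t, Pool.Agent.BEL.H17.pj_apply]
      apply Finset.sum_congr rfl
      intro k _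
      rw [hvk]
    rw [h3]
    exact sum_ae (fun k => e k) bb hb (fun k => v k t) M
  refine ⟨Z, p, v, hZ, ⟨fun k _ t => hdp k t, fun k hk t => ?_⟩, fun k t => ⟨hpk k t, hvk k t⟩,
    hz, hp0, ?_, ?_, hae, ?_⟩
  · have h := hdv k t
    rw [Pool.Agent.BEL.H17.pj_coord, if_pos (Finset.mem_range.2 hk), real_inner_comm, hnin,
      neg_mul] at h
    have h3 : ∫ x, gl 1 al 1 ((P2 (W t (Z t)) : Lp ℝ 2 μ) x) * (e k : X → ℝ) x ∂μ =
        ∫ x, gl 1 al 1 (vel bb (Finset.range M) v t x) * bb k x ∂μ := by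
      apply integral_congr_ae
      filter_upwards [hae t, hb k] with x h4 h5
      rw [h4, h5]
    rw [h3] at h
    exact h
  · rw [hv0, if_pos rfl, mul_one]
  · intro k hk
    rw [hv0, if_neg (by omega), mul_zero]
  · intro t
    have h3 := Pool.Agent.BEL.H17.pj_norm e (Finset.range M) (P1 (W t (Z t)))
    have h4 := Pool.Agent.BEL.H17.pj_norm e (Finset.range M) (P2 (W t (Z t)))
    rw [h1, sub_self, norm_zero] at h3
    rw [h2, sub_self, norm_zero] at h4
    simp only [hpk] at h3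
    simp only [hvk] at h4
    unfold R2 F2
    have h5 : ∑ j ∈ Finset.range M, (p j t ^ 2 + v j t ^ 2) =
        (p 0 t ^ 2 + v 0 t ^ 2) + ∑ k ∈ Finset.Ico 1 M, (p k t ^ 2 + v k t ^ 2) := by
      rw [Finset.range_eq_Ico, Finset.sum_eq_sum_Ico_succ_bot (by omega)]
    rw [← h5, Finset.sum_add_distrib]
    linarith

end

end Pool.Agent.BEW.H24
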